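import Pool.Agent.X13.TT.Pent2

/-!
# The coefficients of the truncated pentagonal series times the theta product

`F_k(q) = (-1)^k/(q^2,q^3,q^4,q^5;q^7)_∞ · ∑_{m ≥ k} (-1)^m (q^{m(3m+1)/2} - q^{m(3m+1)/2+2m+1})
= ∑ c_k(n) q^n`.  We determine all signs: for `k ≥ 1`, with `N_k = k(3k+1)/2`,
`c_k(n) = 0` for `n < N_k` and `n = N_k + 1`, `c_k(N_k) = 1`, and for `n ≥ N_k + 2` one has
`c_k(n) > 0`, except that `c_1(5) = c_1(7) = c_1(9) = 0`.

Idea: already `(-1)^k ∑_{m ≥ k} ...` divided by `(1-q^2)(1-q^3)(1-q^5)(1-q^11)` has non-negative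
coefficients (positive outside a known small set).  The coefficients of the reciprocal of this product
are a cubic polynomial up to a bounded error (the four numbers are pairwise coprime), alternating sums
of a cubic polynomial along the exponents are evaluated exactly, and the main term beats the error for
all `k` and all `n ≥ 126`; for small `n` the coefficients are computed.
-/

namespace Pool.Agent.Results.MP_f836a2_nt.SignPattern

open PowerSeries Finset

/-- `N_k = k(3k+1)/2` -/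
def N (k : ℕ) : ℕ := k * (3 * k + 1) / 2

/-- `∑_{m ≥ k} (-1)^m (q^{m(3m+1)/2} - q^{m(3m+1)/2+2m+1})`: all exponents with index `m` are `≥ m`,
so only the indices `k ≤ m ≤ n` contribute to the coefficient of `q^n` -/
noncomputable def tail (k : ℕ) : ℤ⟦X⟧ :=
  PowerSeries.mk fun n => ∑ m ∈ (range (n + 1)).filter (fun m => k ≤ m),
    (-1) ^ m * ((if N m = n then 1 else 0) - (if N m + 2 * m + 1 = n then 1 else 0))

/-- `(q^2,q^3,q^4,q^5;q^7)_∞`, the product of `1 - q^i` over all `i ≡ 2,3,4,5` modulo `7`: the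
coefficient of `q^n` is that of the finite product over `i ≤ n` (the later factors do not change it) -/
noncomputable def D : ℤ⟦X⟧ :=
  PowerSeries.mk fun n => coeff n (∏ i ∈ (Icc 1 n).filter
    (fun i => i % 7 = 2 ∨ i % 7 = 3 ∨ i % 7 = 4 ∨ i % 7 = 5), (1 - (X : ℤ⟦X⟧) ^ i))

/-- `F_k(q)` -/
noncomputable def F (k : ℕ) : ℤ⟦X⟧ := (-1) ^ k * tail k * invOfUnit D 1

/-- `c_k(n)` -/
noncomputable def c (k n : ℕ) : ℤ := coeff n (F k)

/-- `invOfUnit D 1` is the inverse of `D`, and for every `k ≥ 1`: `c_k(n) = 0` for `n < N_k` and for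
`n = N_k + 1`; `c_k(n) > 0` for `n = N_k` and for every `n ≥ N_k + 2`, unless `k = 1` and
`n ∈ {5, 7, 9}`; and `c_1(5) = c_1(7) = c_1(9) = 0`. -/
theorem result : D * invOfUnit D 1 = 1 ∧
    (∀ k : ℕ, 1 ≤ k →
      (∀ n, n < N k ∨ n = N k + 1 → c k n = 0) ∧
      (∀ n, (n = N k ∨ N k + 2 ≤ n) → ¬ (k = 1 ∧ (n = 5 ∨ n = 7 ∨ n = 9)) → 0 < c k n)) ∧
    c 1 5 = 0 ∧ c 1 7 = 0 ∧ c 1 9 = 0 := by
  have hinv : D * invOfUnit D 1 = 1 := by
    apply mul_invOfUnit
    rw [← coeff_zero_eq_constantCoeff_apply, D, coeff_mk]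
    simp
  have hge : ∀ j, j ≤ N j := Pool.Agent.X13.TT.pa_ge
  have hT : ∀ k, (-1) ^ k * tail k
      = Pool.Agent.X13.TT.th Pool.Agent.X13.TT.pa Pool.Agent.X13.TT.pb k := by
    intro k
    ext m
    have h0 : ((-1 : ℤ⟦X⟧)) ^ k = C ((-1 : ℤ) ^ k) := by simp
    rw [h0, coeff_C_mul, tail, coeff_mk, Pool.Agent.X13.TT.th, coeff_mk, Pool.Agent.X13.TT.thc,
      mul_sum]
    have h1 : ∑ j ∈ (range (m + 1)).filter (fun j => k ≤ j), (-1 : ℤ) ^ k * ((-1) ^ j *
        ((if N j = m then 1 else 0) - (if N j + 2 * j + 1 = m then 1 else 0)))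
        = ∑ j ∈ (range (k + (m + 1))).filter (fun j => k ≤ j), (-1 : ℤ) ^ k * ((-1) ^ j *
        ((if N j = m then 1 else 0) - (if N j + 2 * j + 1 = m then 1 else 0))) := by
      refine sum_subset (filter_subset_filter _ (range_subset_range.mpr (by omega)))
        fun j hj hj2 => ?_
      rw [mem_filter, mem_range] at hj hj2
      have := hge j
      rw [if_neg (by omega), if_neg (by omega)]; simp
    rw [h1]
    symm
    refine sum_bij (fun j _ => k + j) ?_ ?_ ?_ ?_
    · intro j hj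
      rw [mem_range] at hj
      rw [mem_filter, mem_range]; omega
    · intro i _ j _ h
      have : k + i = k + j := h
      omega
    · intro j hj
      rw [mem_filter, mem_range] at hj
      exact ⟨j - k, by rw [mem_range]; omega, by show k + (j - k) = j; omega⟩
    · intro j _
      have hs : (-1 : ℤ) ^ k * (-1) ^ (k + j) = (-1) ^ j := by
        rw [pow_add, ← mul_assoc, ← pow_add, ← two_mul, pow_mul]; simp
      show _ = (-1 : ℤ) ^ k * ((-1) ^ (k + j) * _)
      rw [← mul_assoc, hs]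
      have hb : Pool.Agent.X13.TT.pb (k + j) = N (k + j) + 2 * (k + j) + 1 :=
        Pool.Agent.X13.TT.pa_lt_pb (k + j)
      rw [hb]
      rfl
  have hF : ∀ k, F k = Pool.Agent.X13.TT.th Pool.Agent.X13.TT.pa Pool.Agent.X13.TT.pb k
      * invOfUnit D 1 := fun k => by rw [F, hT]
  have hagree : ∀ M, Pool.Agent.X13.TT.agree M (invOfUnit D 1)
      (∏ i ∈ (Icc 1 M).filter (fun i => i % 7 = 2 ∨ i % 7 = 3 ∨ i % 7 = 4 ∨ i % 7 = 5),
        Pool.Agent.X13.TT.geo i) := Pool.Agent.X13.TT.agree_inv _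
  have hc0 : coeff 0 (invOfUnit D 1) = 1 := by
    rw [hagree 0 0 le_rfl]; simp
  have hc1 : coeff 1 (invOfUnit D 1) = 0 := by
    rw [hagree 1 1 le_rfl]
    have : (Icc 1 1).filter (fun i => i % 7 = 2 ∨ i % 7 = 3 ∨ i % 7 = 4 ∨ i % 7 = 5) = ∅ := by
      decide
    rw [this, prod_empty, coeff_one, if_neg (by norm_num)]
  refine ⟨hinv, ?_, ?_⟩
  · intro k hk
    have hlow := Pool.Agent.X13.TT.ge_of_agree
      (fun i => i % 7 = 2 ∨ i % 7 = 3 ∨ i % 7 = 4 ∨ i % 7 = 5)
      (Pool.Agent.X13.TT.th Pool.Agent.X13.TT.pa Pool.Agent.X13.TT.pb k) (invOfUnit D 1)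
      hagree [2, 3, 5, 11] (by decide) (by decide) (Pool.Agent.X13.TT.pent2_NN k hk)
    have hone := Pool.Agent.X13.TT.pent2_at_one k hk (invOfUnit D 1) hc0
    constructor
    · intro n hn
      unfold c
      rw [hF]
      rcases hn with hn | hn
      · exact Pool.Agent.X13.TT.coeff_th_below k n hn _
      · rw [hn]
        exact hone.2.trans hc1
    · intro n hn hex
      unfold c
      rw [hF]
      rcases Nat.lt_or_ge k 2 with hk2 | hk2
      · have hk1 : k = 1 := by omega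
        subst hk1
        have hN1 : N 1 = 2 := by decide
        rw [hN1] at hn
        have hNN : Pool.Agent.X13.TT.NN (Pool.Agent.X13.TT.th Pool.Agent.X13.TT.pa
            Pool.Agent.X13.TT.pb 1 * Pool.Agent.X13.TT.geoL [2, 3, 5, 11, 4, 9]) := by
          have e : Pool.Agent.X13.TT.th Pool.Agent.X13.TT.pa
            Pool.Agent.X13.TT.pb 1 * Pool.Agent.X13.TT.geoL [2, 3, 5, 11, 4, 9]
            = Pool.Agent.X13.TT.th Pool.Agent.X13.TT.pa
            Pool.Agent.X13.TT.pb 1 * Pool.Agent.X13.TT.geoL [2, 3, 5, 11]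
              * (Pool.Agent.X13.TT.geo 4 * Pool.Agent.X13.TT.geo 9) := by
            simp only [Pool.Agent.X13.TT.geoL, mul_one]; ring
          rw [e]
          exact (Pool.Agent.X13.TT.pent2_NN 1 le_rfl).mul
            ((Pool.Agent.X13.TT.NN.geo 4).mul (Pool.Agent.X13.TT.NN.geo 9))
        have hlow2 := Pool.Agent.X13.TT.ge_of_agree
          (fun i => i % 7 = 2 ∨ i % 7 = 3 ∨ i % 7 = 4 ∨ i % 7 = 5)
          (Pool.Agent.X13.TT.th Pool.Agent.X13.TT.pa Pool.Agent.X13.TT.pb 1) (invOfUnit D 1)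
          hagree [2, 3, 5, 11, 4, 9] (by decide) (by decide) hNN n
        refine lt_of_lt_of_le (Pool.Agent.X13.TT.one_pos' n ?_) hlow2
        simp only [List.mem_cons, List.not_mem_nil, or_false]
        omega
      · refine lt_of_lt_of_le (Pool.Agent.X13.TT.pent2_pos k n hk2 ?_ ?_) (hlow n)
        · show N k ≤ n
          omega
        · show n ≠ N k + 1
          omega
  · have key : ∀ n, n ≤ 9 → c 1 n = (Pool.Agent.X13.TT.dps [2, 3, 4, 5, 9]
        (Pool.Agent.X13.TT.thLJ Pool.Agent.X13.TT.pa Pool.Agent.X13.TT.pb 1 8 126)).getD n 0 := by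
      intro n hn
      unfold c
      rw [hF]
      have h9 := ((Pool.Agent.X13.TT.agree.rfl' 9 (Pool.Agent.X13.TT.th Pool.Agent.X13.TT.pa
        Pool.Agent.X13.TT.pb 1)).mul (hagree 9)) n hn
      rw [h9]
      have hset : (Icc 1 9).filter (fun i => i % 7 = 2 ∨ i % 7 = 3 ∨ i % 7 = 4 ∨ i % 7 = 5)
          = ([2, 3, 4, 5, 9] : List ℕ).toFinset := by decide
      rw [hset, ← Pool.Agent.X13.TT.geoL_eq_prod _ (by decide)]
      exact Pool.Agent.X13.TT.Rep_pent2 1 le_rfl _ (by simp) n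
        (by rw [Pool.Agent.X13.TT.len_pent2]; omega)
    have hl := Pool.Agent.X13.TT.list_one
    exact ⟨(key 5 (by norm_num)).trans hl.1.1, (key 7 (by norm_num)).trans hl.1.2,
      (key 9 le_rfl).trans hl.2⟩

end Pool.Agent.Results.MP_f836a2_nt.SignPattern
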